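import Pool.Agent.H27.EDist

set_option autoImplicit false

namespace Pool.Agent.Results.MP_3951c0_co.Cex

variable {V : Type} [Fintype V]

/-- dominating broadcast -/
def Dom (G : SimpleGraph V) (f : V → ℕ) : Prop :=
  (∀ v, (f v : ℕ∞) ≤ G.eccent v) ∧ ∀ u, ∃ v, 0 < f v ∧ G.edist u v ≤ f v

/-- the upper broadcast number -/
noncomputable def Gb (G : SimpleGraph V) : ℕ :=
  sSup {s | ∃ f, (Dom G f ∧ ∀ g ≤ f, Dom G g → g = f) ∧ ∑ v, f v = s}

/-- two cliques of size `n` joined by a matching on the first four pairs -/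
def K (n : ℕ) : SimpleGraph (Bool × Fin n) := .fromRel fun u v => u.1 = v.1 ∨ (u.2 = v.2 ∧ u.2.1 < 4)

instance (n : ℕ) : DecidableRel (K n).Adj := fun _ _ => by unfold K; infer_instance

def D (n : ℕ) (u v : Bool × Fin n) : ℕ :=
  if u = v then 0 else if u.1 = v.1 then 1 else if u.2 = v.2 then (if u.2.1 < 4 then 1 else 3) else 2

theorem d4 : ∀ u v, (K 4).edist u v = D 4 u v :=
  H27.edist_eq _ _ (by decide) (by decide +kernel) (by decide +kernel)

theorem d5 : ∀ u v, (K 5).edist u v = D 5 u v :=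
  H27.edist_eq _ _ (by decide) (by decide +kernel) (by decide +kernel)

theorem up : Gb (K 5) ≤ 3 := by
  refine csSup_le' ?_
  rintro _ ⟨f, ⟨⟨h1, h2⟩, h3⟩, rfl⟩
  have key : ∀ g ≤ f, (∀ u, ∃ v, 0 < g v ∧ D 5 u v ≤ g v) → ∑ v, g v ≤ 3 → ∑ v, f v ≤ 3 :=
    fun g a b c => h3 g a ⟨fun v => le_trans (by exact_mod_cast a v) (h1 v), fun u => by
      simpa only [d5, Nat.cast_le] using b u⟩ ▸ c
  simp only [d5, Nat.cast_le] at h2
  obtain ⟨u, u1, u2⟩ := h2 (false, 4)
  obtain ⟨v, v1, v2⟩ := h2 (true, 4)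
  have one : ∀ w x, x.1 ≠ w → D 5 (w, 4) x ≤ f x → ∑ v, f v ≤ 3 := fun w x a b =>
    key (Pi.single x (D 5 (w, 4) x)) (fun y => by
      by_cases e : y = x
      · simpa [e] using b
      · simp [e]) (fun y => ⟨x, by
        rw [Pi.single_eq_same]; clear b; revert w x y; decide +kernel⟩) (by
      rw [Finset.sum_pi_single', if_pos (Finset.mem_univ _)]; clear b; revert w x; decide +kernel)
  by_cases a : u.1 = false
  · by_cases b : v.1 = true
    · have e : u ≠ v := fun e => by simp [e, b] at a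
      refine key (fun y => if y = u ∨ y = v then 1 else 0) (fun y => ?_) ?_ ?_
      · show (if _ then _ else _) ≤ f y
        split_ifs with h
        · rcases h with rfl | rfl <;> assumption
        · exact Nat.zero_le _
      all_goals (clear u1 u2 v1 v2; revert u v; decide +kernel)
    · exact one true v b v2
  · exact one false u a u2

theorem low : 4 ≤ Gb (K 4) := by
  have e : ∀ v, 1 ≤ (K 4).eccent v ∧ (K 4).eccent v ≤ 2 := fun v =>
    ⟨ENat.one_le_iff_ne_zero.2 (SimpleGraph.eccent_ne_zero v), iSup_le fun u => by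
      rw [d4]; norm_cast; revert u v; decide +kernel⟩
  refine le_csSup ⟨16, ?_⟩ ⟨fun v => if v.1 then 0 else 1, ⟨⟨fun v => ?_, fun u => ?_⟩, ?_⟩,
    by decide⟩
  · rintro _ ⟨f, ⟨⟨h, -⟩, -⟩, rfl⟩
    simpa using Finset.sum_le_card_nsmul Finset.univ f 2 fun v _ => by
      exact_mod_cast (h v).trans (e v).2
  · beta_reduce
    split_ifs
    · simp
    · exact (e v).1
  · simp only [d4, Nat.cast_le]; revert u; decide +kernel
  · rintro g hg ⟨-, h⟩
    funext ⟨b, i⟩
    obtain ⟨v, a, c⟩ := h (true, i)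
    rw [d4, Nat.cast_le] at c
    have k : ∀ v, 0 < (if v.1 then 0 else 1) → D 4 (true, i) v ≤ (if v.1 then 0 else 1) →
        v = (false, i) := by clear c; revert i; decide +kernel
    obtain rfl := k v (a.trans_le (hg v)) (c.trans (hg v))
    cases b
    · exact le_antisymm (hg _) a
    · exact le_antisymm (hg _) (Nat.zero_le _)

theorem result : (K 4).Connected ∧ (K 5).Connected ∧
    (∃ φ : K 4 →g K 5, Function.Injective φ ∧ ∀ u v, (K 5).edist (φ u) (φ v) = (K 4).edist u v) ∧
    Gb (K 5) < Gb (K 4) := by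
  refine ⟨⟨fun u v => SimpleGraph.reachable_of_edist_ne_top (by simp [d4])⟩,
    ⟨fun u v => SimpleGraph.reachable_of_edist_ne_top (by simp [d5])⟩,
    ⟨⟨Prod.map id Fin.castSucc, fun {a b} => by revert a b; decide +kernel⟩,
      Function.injective_id.prodMap (Fin.castSucc_injective _), fun u v => ?_⟩,
    up.trans_lt low⟩
  rw [d4, d5, Nat.cast_inj]
  show D 5 (Prod.map id Fin.castSucc u) (Prod.map id Fin.castSucc v) = _
  revert u v
  decide +kernel

end Pool.Agent.Results.MP_3951c0_co.Cex
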